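import Pool.Agent.Helper840.BallCube

/-!
# Polytopes with `d + k` facets around the unit ball
-/

set_option autoImplicit false

namespace Pool.Agent.Y585.BC

open Finset

variable {d : ℕ}

/-- lower bound for a body with `d + k` normals -/
theorem lowerG {P : Set (EuclideanSpace ℝ (Fin d))} (hd : 1 ≤ d) {k : ℕ} (hk : 1 ≤ k)
    (y : Fin (d + k) → EuclideanSpace ℝ (Fin d)) (hy0 : ∀ i, y i ≠ 0) (hy1 : ∀ i, ‖y i‖ ≤ 1)
    (hP : ∀ x, (∀ i, inner ℝ x (y i) ≤ 1) → x ∈ P) {R : ℝ} (hR : 0 < R)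
    (hb : ∀ x ∈ P, ‖x‖ ≤ R) : (d : ℝ) / Real.sqrt k ≤ R := by
  have : Nonempty (Fin (d + k)) := ⟨⟨0, by omega⟩⟩
  have hunit : ∀ i, ‖(‖y i‖⁻¹ • y i)‖ = 1 := by
    intro i
    have hn : 0 < ‖y i‖ := norm_pos_iff.mpr (hy0 i)
    rw [norm_smul, norm_inv, norm_norm, inv_mul_cancel₀ hn.ne']
  have h1 := Helper484.level_le (n := d) (k := k) hd hk (by simp)
    (fun i => ‖y i‖⁻¹ • y i) hunit (1 / R)
    (fun w hw => Helper840.BC.level_of_bound y hy0 hy1 hP hR hb w hw)
  have h0 : (0:ℝ) < d := by exact_mod_cast hd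
  have h2 : 0 < Real.sqrt k := Real.sqrt_pos.mpr (by exact_mod_cast hk)
  rw [div_le_iff₀ h2]
  rw [div_le_div_iff₀ hR h0] at h1
  linarith

/-- equality case -/
theorem rigidG {P : Set (EuclideanSpace ℝ (Fin d))} {k q : ℕ} (hk : 1 ≤ k) (hq : 1 ≤ q)
    (hdk : d = k * q)
    (y : Fin (d + k) → EuclideanSpace ℝ (Fin d)) (hy0 : ∀ i, y i ≠ 0) (hy1 : ∀ i, ‖y i‖ ≤ 1)
    (hP : ∀ x, x ∈ P ↔ ∀ i, inner ℝ x (y i) ≤ 1)
    (hb : ∀ x ∈ P, ‖x‖ ≤ (d : ℝ) / Real.sqrt k) :
    ∃ c : Fin k → Fin (q + 1) → EuclideanSpace ℝ (Fin d),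
      (∀ b i, ‖c b i‖ = 1) ∧ (∀ b i j, i ≠ j → inner ℝ (c b i) (c b j) = -1 / (q : ℝ)) ∧
      (∀ b b' i j, b ≠ b' → inner ℝ (c b i) (c b' j) = 0) ∧
      ∀ x, x ∈ P ↔ ∀ b i, inner ℝ (c b i) x ≤ 1 := by
  classical
  have hd : 1 ≤ d := by rw [hdk]; exact Nat.mul_pos hk hq
  have : Nonempty (Fin (d + k)) := ⟨⟨0, by omega⟩⟩
  have h0 : (0:ℝ) < d := by exact_mod_cast hd
  have hq0 : (0:ℝ) < q := by exact_mod_cast hq
  have hk0 : (0:ℝ) < k := by exact_mod_cast hk
  have hsk : 0 < Real.sqrt k := Real.sqrt_pos.mpr hk0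
  have hR : 0 < (d : ℝ) / Real.sqrt k := by positivity
  have hR2 : ((d : ℝ) / Real.sqrt k) ^ 2 = k * (q : ℝ) ^ 2 := by
    rw [div_pow, Real.sq_sqrt hk0.le, hdk]
    push_cast
    field_simp
  have hn : ∀ i, 0 < ‖y i‖ := fun i => norm_pos_iff.mpr (hy0 i)
  set c : Fin (d + k) → EuclideanSpace ℝ (Fin d) := fun i => ‖y i‖⁻¹ • y i with hc
  have hunit : ∀ i, ‖c i‖ = 1 := by
    intro i
    simp only [hc]
    rw [norm_smul, norm_inv, norm_norm, inv_mul_cancel₀ (hn i).ne']
  have hyc : ∀ i, y i = ‖y i‖ • c i := by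
    intro i
    simp only [hc]
    rw [smul_smul, mul_inv_cancel₀ (hn i).ne', one_smul]
  obtain ⟨f, hf1, hf2, hf3⟩ := Helper484.structure_of_cover (n := d) (k := k) (q := q)
    hq hk hdk (by simp) c hunit (by
      intro w hw
      have e : Real.sqrt k / d = 1 / ((d : ℝ) / Real.sqrt k) := by
        rw [one_div_div]
      rw [e]
      exact Helper840.BC.level_of_bound y hy0 hy1 (fun x hx => (hP x).mpr hx) hR hb w hw)
  have hin : ∀ i j, inner ℝ (c i) (c j) =
      if i = j then (1:ℝ) else if f i = f j then -1 / (q : ℝ) else 0 := by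
    intro i j
    by_cases hij : i = j
    · rw [if_pos hij, hij, real_inner_self_eq_norm_sq, hunit]; norm_num
    · rw [if_neg hij]
      by_cases hf : f i = f j
      · rw [if_pos hf]; exact hf2 i j hij hf
      · rw [if_neg hf]; exact hf3 i j hf
  -- all normals have norm one
  have hnorm : ∀ i, ‖y i‖ = 1 := by
    intro i0
    by_contra hne
    have hlt : ‖y i0‖ < 1 := lt_of_le_of_ne (hy1 i0) hne
    -- choose an index in each block, different from `i0`
    have hch : ∀ b : Fin k, ∃ j, f j = b ∧ j ≠ i0 := by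
      intro b
      have h1 := hf1 b
      have h2 : 1 < (univ.filter (fun j => f j = b)).card := by rw [h1]; omega
      obtain ⟨j, hj, hji⟩ := Finset.exists_mem_ne h2 i0
      exact ⟨j, (mem_filter.1 hj).2, hji⟩
    choose r hr hri using hch
    set ε : ℝ := ‖y i0‖⁻¹ - 1 with hε
    have hεpos : 0 < ε := by
      have := (one_lt_inv₀ (hn i0)).mpr hlt
      rw [hε]; linarith
    set z : EuclideanSpace ℝ (Fin d) := ∑ b, (-(q : ℝ)) • c (r b) with hz
    have hzc : ∀ i, inner ℝ z (c i) = if i = r (f i) then -(q : ℝ) else 1 := by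
      intro i
      rw [hz, sum_inner]
      rw [Finset.sum_eq_single (f i)]
      · rw [real_inner_smul_left, hin]
        by_cases hi : r (f i) = i
        · rw [if_pos hi, if_pos hi.symm]; ring
        · rw [if_neg hi, if_pos (hr (f i)), if_neg (Ne.symm hi)]
          field_simp
      · intro b _ hb
        rw [real_inner_smul_left, hin]
        have h1 : r b ≠ i := by
          intro h; exact hb (by rw [← h, hr])
        have h2 : f (r b) ≠ f i := by rw [hr]; exact hb
        rw [if_neg h1, if_neg h2, mul_zero]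
      · intro h; exact absurd (mem_univ _) h
    have hz2 : ‖z‖ ^ 2 = k * (q : ℝ) ^ 2 := by
      rw [← real_inner_self_eq_norm_sq]
      conv_lhs => rw [hz]
      rw [inner_sum]
      have : ∀ b ∈ (univ : Finset (Fin k)), inner ℝ (∑ b, (-(q : ℝ)) • c (r b))
          ((-(q : ℝ)) • c (r b)) = (q : ℝ) ^ 2 := by
        intro b _
        rw [← hz, inner_smul_right, hzc, hr, if_pos rfl]
        ring
      rw [Finset.sum_congr rfl this, Finset.sum_const, card_univ, Fintype.card_fin,
        nsmul_eq_mul]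
    set x := z + ε • c i0 with hx
    have hi0 : i0 ≠ r (f i0) := (hri (f i0)).symm
    have hxP : x ∈ P := by
      rw [hP]
      intro i
      have h1 : inner ℝ x (c i) ≤ if i = i0 then ‖y i0‖⁻¹ else 1 := by
        rw [hx, inner_add_left, real_inner_smul_left, hzc, hin]
        by_cases hi : i = i0
        · rw [if_pos hi, hi, if_neg hi0, if_pos rfl, hε]
          linarith
        · rw [if_neg hi, if_neg (Ne.symm hi)]
          have h2 : (if i = r (f i) then -(q : ℝ) else 1) ≤ 1 := by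
            split_ifs
            · linarith
            · exact le_refl _
          have h3 : ε * (if f i0 = f i then -1 / (q : ℝ) else 0) ≤ 0 := by
            split_ifs
            · have : -1 / (q : ℝ) ≤ 0 := by
                rw [neg_div]; have : 0 < 1 / (q : ℝ) := by positivity
                linarith
              exact mul_nonpos_of_nonneg_of_nonpos hεpos.le this
            · simp
          linarith
      rw [hyc i, inner_smul_right]
      by_cases hi : i = i0
      · rw [if_pos hi] at h1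
        rw [hi] at h1 ⊢
        calc ‖y i0‖ * inner ℝ x (c i0) ≤ ‖y i0‖ * ‖y i0‖⁻¹ := by
              have := hn i0
              gcongr
          _ = 1 := mul_inv_cancel₀ (hn i0).ne'
      · rw [if_neg hi] at h1
        calc ‖y i‖ * inner ℝ x (c i) ≤ ‖y i‖ * 1 := by
              have := hn i
              gcongr
          _ ≤ 1 := by linarith [hy1 i]
    have h1 := hb x hxP
    have h2 : ‖x‖ ^ 2 ≤ k * (q : ℝ) ^ 2 := by
      rw [← hR2]
      gcongr
    have h3 : ‖x‖ ^ 2 = k * (q : ℝ) ^ 2 + 2 * ε + ε ^ 2 := by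
      rw [hx, norm_add_sq_real, norm_smul, hunit, inner_smul_right, hzc, if_neg hi0, hz2,
        Real.norm_of_nonneg hεpos.le]
      ring
    nlinarith
  have hyi : ∀ i, y i = c i := by
    intro i
    rw [hyc i, hnorm i, one_smul]
  -- enumerate the blocks
  have hen : ∀ b : Fin k, ∃ g : Fin (q + 1) → Fin (d + k), Function.Injective g ∧
      ∀ j, f j = b ↔ ∃ i, g i = j := by
    intro b
    set s := univ.filter (fun j => f j = b) with hs
    have hcard : s.card = q + 1 := hf1 b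
    refine ⟨fun i => (s.equivFinOfCardEq hcard).symm i, ?_, ?_⟩
    · intro i i' h
      exact (s.equivFinOfCardEq hcard).symm.injective (Subtype.ext h)
    · intro j
      constructor
      · intro hj
        refine ⟨s.equivFinOfCardEq hcard ⟨j, mem_filter.2 ⟨mem_univ _, hj⟩⟩, ?_⟩
        simp
      · rintro ⟨i, rfl⟩
        exact (mem_filter.1 ((s.equivFinOfCardEq hcard).symm i).2).2
  choose g hg1 hg2 using hen
  have hfg : ∀ b i, f (g b i) = b := fun b i => (hg2 b _).2 ⟨i, rfl⟩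
  refine ⟨fun b i => c (g b i), fun b i => hunit _, ?_, ?_, ?_⟩
  · intro b i j hij
    rw [hin, if_neg (fun h => hij (hg1 b h)), if_pos (by rw [hfg, hfg])]
  · intro b b' i j hbb
    rw [hin, if_neg (fun h => hbb (by rw [← hfg b i, ← hfg b' j, h])),
      if_neg (by rw [hfg, hfg]; exact hbb)]
  · intro x
    rw [hP]
    constructor
    · intro h b i
      have := h (g b i)
      rw [hyi, real_inner_comm] at this
      exact this
    · intro h j
      obtain ⟨i, hi⟩ := (hg2 (f j) j).1 rfl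
      have h4 : inner ℝ (c (g (f j) i)) x ≤ 1 := h (f j) i
      rw [hi] at h4
      rw [hyi, real_inner_comm]
      exact h4

/-- a bounded product of regular simplices lies in the ball of radius `d / √k` -/
theorem boundG {P : Set (EuclideanSpace ℝ (Fin d))} {k q : ℕ} (hk : 1 ≤ k) (hq : 1 ≤ q)
    (hdk : d = k * q) (hbd : ∃ R : ℝ, ∀ x ∈ P, ‖x‖ ≤ R)
    (c : Fin k → Fin (q + 1) → EuclideanSpace ℝ (Fin d))
    (h1 : ∀ b i, ‖c b i‖ = 1) (h2 : ∀ b i j, i ≠ j → inner ℝ (c b i) (c b j) = -1 / (q : ℝ))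
    (h3 : ∀ b b' i j, b ≠ b' → inner ℝ (c b i) (c b' j) = 0)
    (hP : ∀ x, x ∈ P ↔ ∀ b i, inner ℝ (c b i) x ≤ 1) :
    ∀ x ∈ P, ‖x‖ ≤ (d : ℝ) / Real.sqrt k := by
  classical
  have hq0 : (0:ℝ) < q := by exact_mod_cast hq
  have hk0 : (0:ℝ) < k := by exact_mod_cast hk
  have hd : 1 ≤ d := by rw [hdk]; exact Nat.mul_pos hk hq
  have h0 : (0:ℝ) < d := by exact_mod_cast hd
  have hsk : 0 < Real.sqrt k := Real.sqrt_pos.mpr hk0
  have hR2 : ((d : ℝ) / Real.sqrt k) ^ 2 = k * (q : ℝ) ^ 2 := by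
    rw [div_pow, Real.sq_sqrt hk0.le, hdk]
    push_cast
    field_simp
  have hin : ∀ b b' i j, inner ℝ (c b i) (c b' j) =
      if b = b' then (if i = j then (1:ℝ) else -1 / (q : ℝ)) else 0 := by
    intro b b' i j
    by_cases hb : b = b'
    · subst hb
      rw [if_pos rfl]
      by_cases hij : i = j
      · subst hij; rw [if_pos rfl, real_inner_self_eq_norm_sq, h1]; norm_num
      · rw [if_neg hij, h2 b i j hij]
    · rw [if_neg hb, h3 b b' i j hb]
  -- the sum of each block vanishes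
  have hrow : ∀ b j, ∑ i, inner ℝ (c b i) (c b j) = (0 : ℝ) := by
    intro b j
    simp only [hin, if_true]
    rw [← Finset.add_sum_erase _ _ (mem_univ j), if_pos rfl]
    have : ∀ i ∈ univ.erase j, (if i = j then (1:ℝ) else -1 / (q : ℝ)) = -1 / (q : ℝ) := by
      intro i hi
      rw [if_neg (ne_of_mem_erase hi)]
    rw [Finset.sum_congr rfl this, Finset.sum_const, card_erase_of_mem (mem_univ _), card_univ,
      Fintype.card_fin, nsmul_eq_mul, Nat.add_sub_cancel]
    field_simp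
    ring
  have hsum0 : ∀ b, ∑ i, c b i = 0 := by
    intro b
    have : ‖∑ i, c b i‖ ^ 2 = 0 := by
      rw [← real_inner_self_eq_norm_sq, inner_sum]
      apply Finset.sum_eq_zero
      intro j _
      rw [sum_inner]
      exact hrow b j
    rw [← norm_eq_zero]
    exact pow_eq_zero_iff (two_ne_zero) |>.mp this
  -- the frame operator
  let S : EuclideanSpace ℝ (Fin d) →ₗ[ℝ] EuclideanSpace ℝ (Fin d) :=
    ∑ b, ∑ i, (innerₗ (EuclideanSpace ℝ (Fin d)) (c b i)).smulRight (c b i)
  have hS : ∀ x, S x = ∑ b, ∑ i, (inner ℝ (c b i) x) • c b i := by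
    intro x
    simp [S, LinearMap.sum_apply]
  have hSc : ∀ b j, S (c b j) = (((q : ℝ) + 1) / q) • c b j := by
    intro b j
    rw [hS, Finset.sum_eq_single b]
    · simp only [hin, if_true]
      have e : ∀ i, (if i = j then (1:ℝ) else -1 / (q : ℝ)) • c b i =
          (-1 / (q : ℝ)) • c b i + (if i = j then (1 + 1 / (q : ℝ)) • c b i else 0) := by
        intro i
        split_ifs with h
        · rw [← add_smul]; congr 1; ring
        · rw [add_zero]
      simp only [e]
      rw [Finset.sum_add_distrib, ← Finset.smul_sum, hsum0, smul_zero, zero_add,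
        Finset.sum_ite_eq' univ j, if_pos (mem_univ _)]
      congr 1
      field_simp
    · intro b' _ hb
      apply Finset.sum_eq_zero
      intro i _
      rw [hin, if_neg hb, zero_smul]
    · intro h; exact absurd (mem_univ _) h
  -- the vectors span
  have hspan : Submodule.span ℝ (Set.range fun p : Fin k × Fin (q + 1) => c p.1 p.2) = ⊤ := by
    by_contra hne
    have h4 : (Submodule.span ℝ (Set.range fun p : Fin k × Fin (q + 1) => c p.1 p.2))ᗮ ≠ ⊥ := by
      intro h
      exact hne ((Submodule.orthogonal_eq_bot_iff).mp h)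
    obtain ⟨u, hu, hu0⟩ := Submodule.exists_mem_ne_zero_of_ne_bot h4
    have hu' : ∀ b i, inner ℝ (c b i) u = 0 := by
      intro b i
      exact (Submodule.mem_orthogonal _ _).1 hu _ (Submodule.subset_span ⟨(b, i), rfl⟩)
    obtain ⟨R, hR⟩ := hbd
    have hun : 0 < ‖u‖ := norm_pos_iff.2 hu0
    have h5 : ((|R| + 1) / ‖u‖) • u ∈ P := by
      rw [hP]
      intro b i
      rw [inner_smul_right, hu', mul_zero]
      exact zero_le_one
    have h6 := hR _ h5
    rw [norm_smul, Real.norm_of_nonneg (by positivity), div_mul_cancel₀ _ hun.ne'] at h6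
    linarith [le_abs_self R]
  have hSx : ∀ x, S x = (((q : ℝ) + 1) / q) • x := by
    intro x
    have hx : x ∈ Submodule.span ℝ (Set.range fun p : Fin k × Fin (q + 1) => c p.1 p.2) := by
      rw [hspan]; trivial
    induction hx using Submodule.span_induction with
    | mem x hx =>
      obtain ⟨p, rfl⟩ := hx
      exact hSc p.1 p.2
    | zero => simp
    | add x y _ _ hx hy => rw [map_add, hx, hy, smul_add]
    | smul a x _ hx => rw [map_smul, hx, smul_comm]
  intro x hx
  have hxc := (hP x).1 hx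
  have hfr : ∑ b, ∑ i, (inner ℝ (c b i) x) ^ 2 = (((q : ℝ) + 1) / q) * ‖x‖ ^ 2 := by
    have h5 : inner ℝ (S x) x = (((q : ℝ) + 1) / q) * ‖x‖ ^ 2 := by
      rw [hSx, real_inner_smul_left, real_inner_self_eq_norm_sq]
    rw [← h5, hS, sum_inner]
    refine Finset.sum_congr rfl (fun b _ => ?_)
    rw [sum_inner]
    refine Finset.sum_congr rfl (fun i _ => ?_)
    rw [real_inner_smul_left]; ring
  have hblk : ∀ b, ∑ i, (inner ℝ (c b i) x) ^ 2 ≤ (q : ℝ) * (q + 1) := by
    intro b
    have h5 : ∑ i, inner ℝ (c b i) x = (0 : ℝ) := by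
      rw [← sum_inner, hsum0, inner_zero_left]
    have h6 : ∑ i, (1 - inner ℝ (c b i) x) = (q : ℝ) + 1 := by
      rw [Finset.sum_sub_distrib, h5, Finset.sum_const, card_univ, Fintype.card_fin, nsmul_eq_mul]
      push_cast; ring
    have h7 : ∑ i, (1 - inner ℝ (c b i) x) ^ 2 ≤ (∑ i, (1 - inner ℝ (c b i) x)) ^ 2 :=
      Finset.sum_sq_le_sq_sum_of_nonneg (fun i _ => by linarith [hxc b i])
    have h8 : ∑ i, (1 - inner ℝ (c b i) x) ^ 2 =
        ((q : ℝ) + 1) + ∑ i, (inner ℝ (c b i) x) ^ 2 := by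
      have : ∀ i, (1 - inner ℝ (c b i) x) ^ 2 =
          1 - 2 * inner ℝ (c b i) x + (inner ℝ (c b i) x) ^ 2 := fun i => by ring
      simp only [this]
      rw [Finset.sum_add_distrib, Finset.sum_sub_distrib, ← Finset.mul_sum, h5, Finset.sum_const,
        card_univ, Fintype.card_fin, nsmul_eq_mul]
      push_cast; ring
    rw [h6, h8] at h7
    nlinarith
  have h9 : (((q : ℝ) + 1) / q) * ‖x‖ ^ 2 ≤ k * ((q : ℝ) * (q + 1)) := by
    rw [← hfr]
    calc ∑ b, ∑ i, (inner ℝ (c b i) x) ^ 2 ≤ ∑ b : Fin k, (q : ℝ) * (q + 1) :=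
          Finset.sum_le_sum (fun b _ => hblk b)
      _ = k * ((q : ℝ) * (q + 1)) := by
          rw [Finset.sum_const, card_univ, Fintype.card_fin, nsmul_eq_mul]
  have h10 : ‖x‖ ^ 2 ≤ ((d : ℝ) / Real.sqrt k) ^ 2 := by
    rw [hR2]
    have e : (((q : ℝ) + 1) / q) * ‖x‖ ^ 2 = ((q : ℝ) + 1) * ‖x‖ ^ 2 / q := by ring
    rw [e, div_le_iff₀ hq0] at h9
    have h11 : ((q : ℝ) + 1) * ‖x‖ ^ 2 ≤ ((q : ℝ) + 1) * (k * (q : ℝ) ^ 2) := by
      calc ((q : ℝ) + 1) * ‖x‖ ^ 2 ≤ k * ((q : ℝ) * (q + 1)) * q := h9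
        _ = _ := by ring
    exact le_of_mul_le_mul_left h11 (by positivity)
  exact abs_le_of_sq_le_sq' h10 (by positivity) |>.2

end Pool.Agent.Y585.BC
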